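import Pool.Agent.Run7.h378.IfaceD

/-!
# MP_5766af_al, piece D2: basic facts about `D_l` (helper212)
-/

noncomputable section

namespace Pool.Agent.Run7.h212.h378D2

open Finset Pool.Agent.Run7.h378

variable {K : Type} [Field K] [CharZero K] {D : Type} [DivisionRing D] {C : Core K}
  (A : Alg C D)

include A

theorem u_ne (l : ℕ) : A.u l ≠ 0 := by
  intro h
  have h1 := A.w_u l
  rw [h, AddValuation.map_zero] at h1
  exact WithTop.top_ne_coe h1

theorem ι_ne {x : K} (hx : x ≠ 0) : A.ι x ≠ 0 := by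
  intro h
  exact hx (A.ι.injective (by rw [h, map_zero]))

theorem u_pow_comm (l i : ℕ) (x : K) :
    A.u l ^ i * A.ι x = A.ι ((C.g l)^[i] x) * A.u l ^ i := by
  induction i generalizing x with
  | zero => simp
  | succ i ih =>
    rw [pow_succ, mul_assoc, A.u_comm, ← mul_assoc, ih, mul_assoc, Function.iterate_succ_apply]

theorem mul_pow_u (l i : ℕ) (x : K) :
    (A.ι x * A.u l) ^ i = A.ι (∏ j ∈ range i, (C.g l)^[j] x) * A.u l ^ i := by
  induction i with
  | zero => simp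
  | succ i ih =>
    rw [pow_succ, ih, prod_range_succ, map_mul, pow_succ (A.u l)]
    have := u_pow_comm A l i x
    calc A.ι (∏ j ∈ range i, (C.g l)^[j] x) * A.u l ^ i * (A.ι x * A.u l)
        = A.ι (∏ j ∈ range i, (C.g l)^[j] x) * (A.u l ^ i * A.ι x) * A.u l := by
          simp only [mul_assoc]
      _ = _ := by rw [this]; simp only [mul_assoc]

theorem u_pow (l : ℕ) : A.u l ^ (2 ^ l) = A.ι (C.c l) := by
  induction l with
  | zero => simp [A.u_zero]
  | succ l ih =>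
    rw [pow_succ (2 : ℕ) l, mul_comm (2 ^ l) 2, pow_mul, pow_two, A.u_sq, mul_pow_u, ih, C.c_succ,
      map_mul]

theorem c_ne (l : ℕ) : C.c l ≠ 0 := by
  intro h
  have h1 := u_pow A l
  rw [h, map_zero] at h1
  exact u_ne A l (pow_eq_zero_iff (by positivity) |>.mp h1)

theorem a_ne (l : ℕ) : C.a l ≠ 0 := by
  intro h
  have h1 := C.v_a l
  rw [h, AddValuation.map_zero] at h1
  exact absurd h1 (by decide)

theorem w_term (l i : ℕ) (x : K) (hx : x ≠ 0) : ∃ n : ℤ,
    A.w (A.ι x * A.u l ^ i) = (((n : ℚ) + (i : ℚ) / 2 ^ l : ℚ) : WithTop ℚ) := by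
  have hv : C.v x ≠ ⊤ := by
    intro h
    exact hx ((AddValuation.top_iff _).mp h)
  obtain ⟨n, hn⟩ := WithTop.ne_top_iff_exists.mp hv
  refine ⟨n, ?_⟩
  rw [AddValuation.map_mul, A.w_ι, ← hn, AddValuation.map_pow, A.w_u, WithTop.map_coe,
    ← WithTop.coe_nsmul, ← WithTop.coe_add]
  congr 1
  rw [nsmul_eq_mul]
  ring

theorem w_term_ne (l i j : ℕ) (hi : i < 2 ^ l) (hj : j < 2 ^ l) (hij : i ≠ j) (x y : K)
    (hx : x ≠ 0) : A.w (A.ι x * A.u l ^ i) ≠ A.w (A.ι y * A.u l ^ j) := by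
  by_cases hy : y = 0
  · obtain ⟨n, hn⟩ := w_term A l i x hx
    rw [hn, hy, map_zero, zero_mul, AddValuation.map_zero]
    exact WithTop.coe_ne_top
  · obtain ⟨n, hn⟩ := w_term A l i x hx
    obtain ⟨m, hm⟩ := w_term A l j y hy
    rw [hn, hm]
    intro h
    have h1 := WithTop.coe_injective h
    have h2 : (n : ℚ) * 2 ^ l + i = m * 2 ^ l + j := by
      have h3 : ((n : ℚ) + (i : ℚ) / 2 ^ l) * 2 ^ l = (m + (j : ℚ) / 2 ^ l) * 2 ^ l := by rw [h1]
      have h4 : (2 : ℚ) ^ l ≠ 0 := by positivity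
      rw [add_mul, add_mul, div_mul_cancel₀ _ h4, div_mul_cancel₀ _ h4] at h3
      exact h3
    have h5 : n * 2 ^ l + (i : ℤ) = m * 2 ^ l + j := by exact_mod_cast h2
    have hi' : (i : ℤ) < 2 ^ l := by exact_mod_cast hi
    have hj' : (j : ℤ) < 2 ^ l := by exact_mod_cast hj
    have h6 : (i : ℤ) % 2 ^ l = (j : ℤ) % 2 ^ l := by
      have : ((n * 2 ^ l + (i : ℤ)) % 2 ^ l) = (m * 2 ^ l + (j : ℤ)) % 2 ^ l := by rw [h5]
      rwa [add_comm, Int.add_mul_emod_self_right, add_comm (m * 2 ^ l),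
        Int.add_mul_emod_self_right] at this
    rw [Int.emod_eq_of_lt (by positivity) hi', Int.emod_eq_of_lt (by positivity) hj'] at h6
    exact hij (by exact_mod_cast h6)

/-- the value of a sum is the value of one of its nonzero terms, and is at most all values -/
theorem w_sum (l : ℕ) (f : ℕ → K) :
    (∀ i, i < 2 ^ l → A.w (∑ j ∈ range (2 ^ l), A.ι (f j) * A.u l ^ j) ≤
      A.w (A.ι (f i) * A.u l ^ i)) ∧
    ((∃ i, i < 2 ^ l ∧ f i ≠ 0) → ∃ i, i < 2 ^ l ∧ f i ≠ 0 ∧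
      A.w (∑ j ∈ range (2 ^ l), A.ι (f j) * A.u l ^ j) = A.w (A.ι (f i) * A.u l ^ i)) := by
  have hne : (range (2 ^ l)).Nonempty := ⟨0, mem_range.mpr (by positivity)⟩
  obtain ⟨j, hj, hmin⟩ := exists_min_image (range (2 ^ l))
    (fun i => A.w (A.ι (f i) * A.u l ^ i)) hne
  have hj' := mem_range.mp hj
  by_cases hfj : f j = 0
  · have htop : ∀ i, i < 2 ^ l → f i = 0 := by
      intro i hi
      have h1 := hmin i (mem_range.mpr hi)
      simp only [hfj, map_zero, zero_mul, AddValuation.map_zero, top_le_iff] at h1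
      have h2 := (AddValuation.top_iff _).mp h1
      rcases mul_eq_zero.mp h2 with h3 | h3
      · by_contra h4
        exact ι_ne A h4 h3
      · exact absurd h3 (pow_ne_zero _ (u_ne A l))
    refine ⟨fun i hi => ?_, fun ⟨i, hi, hf⟩ => absurd (htop i hi) hf⟩
    rw [htop i hi, map_zero, zero_mul, AddValuation.map_zero]
    exact le_top
  · have heq : A.w (∑ i ∈ range (2 ^ l), A.ι (f i) * A.u l ^ i) =
        A.w (A.ι (f j) * A.u l ^ j) := by
      rw [← add_sum_erase _ _ hj]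
      have hlt : A.w (A.ι (f j) * A.u l ^ j) <
          A.w (∑ i ∈ (range (2 ^ l)).erase j, A.ι (f i) * A.u l ^ i) := by
        apply AddValuation.map_lt_sum
        · obtain ⟨n, hn⟩ := w_term A l j (f j) hfj
          rw [hn]
          exact WithTop.coe_ne_top
        · intro i hi
          rw [mem_erase] at hi
          exact lt_of_le_of_ne (hmin i hi.2)
            (w_term_ne A l j i hj' (mem_range.mp hi.2) (Ne.symm hi.1) _ _ hfj)
      have := AddValuation.map_add_of_distinct_val (v := A.w) hlt.ne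
      rw [this, min_eq_left hlt.le]
    refine ⟨fun i hi => ?_, fun _ => ⟨j, hj', hfj, heq⟩⟩
    rw [heq]
    exact hmin i (mem_range.mpr hi)

theorem uniq (l : ℕ) (f : ℕ → K) (h : (∑ j ∈ range (2 ^ l), A.ι (f j) * A.u l ^ j) = 0)
    (i : ℕ) (hi : i < 2 ^ l) : f i = 0 := by
  have h1 := (w_sum A l f).1 i hi
  rw [h, AddValuation.map_zero, top_le_iff] at h1
  have h2 := (AddValuation.top_iff _).mp h1
  rcases mul_eq_zero.mp h2 with h3 | h3
  · by_contra h4
    exact ι_ne A h4 h3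
  · exact absurd h3 (pow_ne_zero _ (u_ne A l))

/-! ### membership -/

theorem zero_mem (l : ℕ) : (0 : D) ∈ A.Dl l := ⟨fun _ => 0, by simp⟩

theorem add_mem (l : ℕ) (x y : D) (hx : x ∈ A.Dl l) (hy : y ∈ A.Dl l) : x + y ∈ A.Dl l := by
  obtain ⟨f, rfl⟩ := hx
  obtain ⟨g, rfl⟩ := hy
  refine ⟨fun i => f i + g i, ?_⟩
  rw [← sum_add_distrib]
  exact sum_congr rfl fun i _ => by rw [map_add, add_mul]

theorem neg_mem (l : ℕ) (x : D) (hx : x ∈ A.Dl l) : -x ∈ A.Dl l := by
  obtain ⟨f, rfl⟩ := hx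
  refine ⟨fun i => - f i, ?_⟩
  rw [← sum_neg_distrib]
  exact sum_congr rfl fun i _ => by rw [map_neg, neg_mul]

theorem sum_mem (l : ℕ) {α : Type} (s : Finset α) (F : α → D) (h : ∀ i ∈ s, F i ∈ A.Dl l) :
    ∑ i ∈ s, F i ∈ A.Dl l := by
  classical
  induction s using Finset.induction_on with
  | empty => simpa using zero_mem A l
  | insert a s ha ih =>
    rw [sum_insert ha]
    exact add_mem A l _ _ (h a (mem_insert_self _ _))
      (ih fun i hi => h i (mem_insert_of_mem hi))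

theorem g_c_iter (l i : ℕ) : (C.g l)^[i] (C.c l) = C.c l := by
  induction i with
  | zero => rfl
  | succ i ih => rw [Function.iterate_succ_apply, C.g_c, ih]

theorem term_mem (l n : ℕ) (x : K) : A.ι x * A.u l ^ n ∈ A.Dl l := by
  induction n using Nat.strong_induction_on generalizing x with
  | _ n ih =>
    by_cases hn : n < 2 ^ l
    · refine ⟨fun i => if i = n then x else 0, ?_⟩
      rw [sum_eq_single n]
      · simp
      · intro b _ hb
        simp [hb]
      · intro h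
        exact absurd (mem_range.mpr hn) h
    · have hp : 0 < 2 ^ l := by positivity
      obtain ⟨m, rfl⟩ : ∃ m, n = m + 2 ^ l := ⟨n - 2 ^ l, by omega⟩
      have h1 : A.ι x * A.u l ^ (m + 2 ^ l) = A.ι (x * C.c l) * A.u l ^ m := by
        rw [pow_add, u_pow, u_pow_comm, g_c_iter A, map_mul, mul_assoc]
      rw [h1]
      exact ih m (by omega) _

theorem mul_mem (l : ℕ) (x y : D) (hx : x ∈ A.Dl l) (hy : y ∈ A.Dl l) : x * y ∈ A.Dl l := by
  obtain ⟨f, rfl⟩ := hx
  obtain ⟨g, rfl⟩ := hy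
  rw [sum_mul]
  refine sum_mem A l _ _ fun i _ => ?_
  rw [mul_sum]
  refine sum_mem A l _ _ fun j _ => ?_
  have h1 : A.ι (f i) * A.u l ^ i * (A.ι (g j) * A.u l ^ j) =
      A.ι (f i * (C.g l)^[i] (g j)) * A.u l ^ (i + j) := by
    rw [map_mul, pow_add]
    have := u_pow_comm A l i (g j)
    calc A.ι (f i) * A.u l ^ i * (A.ι (g j) * A.u l ^ j)
        = A.ι (f i) * (A.u l ^ i * A.ι (g j)) * A.u l ^ j := by simp only [mul_assoc]
      _ = _ := by rw [this]; simp only [mul_assoc]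
  rw [h1]
  exact term_mem A l _ _

theorem ι_mem (l : ℕ) (x : K) : A.ι x ∈ A.Dl l := by
  simpa using term_mem A l 0 x

theorem one_mem (l : ℕ) : (1 : D) ∈ A.Dl l := by
  simpa using ι_mem A l 1

theorem u_mem (l : ℕ) : A.u l ∈ A.Dl l := by
  simpa using term_mem A l 1 1

theorem pow_mem (l : ℕ) (x : D) (hx : x ∈ A.Dl l) (n : ℕ) : x ^ n ∈ A.Dl l := by
  induction n with
  | zero => simpa using one_mem A l
  | succ n ih => rw [pow_succ]; exact mul_mem A l _ _ ih hx

/-- induction principle -/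
theorem induct (l : ℕ) (P : D → Prop) (h0 : P 0) (hadd : ∀ x y, P x → P y → P (x + y))
    (hmul : ∀ x y, P x → P y → P (x * y)) (hι : ∀ x, P (A.ι x)) (hu : P (A.u l))
    (d : D) (hd : d ∈ A.Dl l) : P d := by
  obtain ⟨f, rfl⟩ := hd
  have hpow : ∀ i, P (A.u l ^ i) := by
    intro i
    induction i with
    | zero => simpa using hι 1
    | succ i ih => rw [pow_succ]; exact hmul _ _ ih hu
  have : ∀ s : Finset ℕ, P (∑ i ∈ s, A.ι (f i) * A.u l ^ i) := by
    intro s
    induction s using Finset.induction_on with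
    | empty => simpa using h0
    | insert a s ha ih =>
      rw [sum_insert ha]
      exact hadd _ _ (hmul _ _ (hι _) (hpow a)) ih
  exact this _

theorem inv_mem (l : ℕ) (d : D) (hd : d ∈ A.Dl l) : d⁻¹ ∈ A.Dl l := by
  by_cases h0 : d = 0
  · rw [h0, inv_zero]; exact zero_mem A l
  let _ : Module K D := Module.compHom D A.ι
  have smul_def : ∀ (k : K) (x : D), k • x = A.ι k * x := fun _ _ => rfl
  let V : Submodule K D :=
    { carrier := A.Dl l
      add_mem' := fun {a b} ha hb => add_mem A l a b ha hb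
      zero_mem' := zero_mem A l
      smul_mem' := fun k x hx => by
        rw [smul_def]
        exact mul_mem A l _ _ (ι_mem A l k) hx }
  have hV : ∀ x, x ∈ V ↔ x ∈ A.Dl l := fun _ => Iff.rfl
  have hspan : V = Submodule.span K ((fun i => A.u l ^ i) '' (range (2 ^ l) : Set ℕ)) := by
    apply le_antisymm
    · rintro x ⟨f, rfl⟩
      refine Submodule.sum_mem _ fun i hi => ?_
      rw [← smul_def]
      exact Submodule.smul_mem _ _ (Submodule.subset_span ⟨i, hi, rfl⟩)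
    · rw [Submodule.span_le]
      rintro x ⟨i, _, rfl⟩
      exact pow_mem A l _ (u_mem A l) i
  have : FiniteDimensional K V := by
    rw [hspan]
    exact FiniteDimensional.span_of_finite K ((range (2 ^ l)).finite_toSet.image _)
  let R : V →ₗ[K] V :=
    { toFun := fun x => ⟨x.1 * d, mul_mem A l _ _ x.2 hd⟩
      map_add' := fun x y => by
        apply Subtype.ext
        simp [add_mul]
      map_smul' := fun k x => by
        apply Subtype.ext
        change (k • x.1) * d = k • (x.1 * d)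
        rw [smul_def, smul_def, mul_assoc] }
  have hinj : Function.Injective R := by
    intro x y hxy
    have h1 : x.1 * d = y.1 * d := congrArg Subtype.val hxy
    exact Subtype.ext (mul_right_cancel₀ h0 h1)
  obtain ⟨e, he⟩ := (LinearMap.injective_iff_surjective.mp hinj) ⟨1, one_mem A l⟩
  have h1 : e.1 * d = 1 := congrArg Subtype.val he
  have h2 : d⁻¹ = e.1 := by
    rw [eq_comm]
    exact eq_inv_of_mul_eq_one_left h1
  rw [h2]
  exact e.2

theorem u_eq (l : ℕ) : A.u l = A.ι (C.a l)⁻¹ * (A.u (l + 1) * A.u (l + 1)) := by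
  rw [A.u_sq, ← mul_assoc, ← map_mul, inv_mul_cancel₀ (a_ne A l), map_one, one_mul]

theorem mono (l : ℕ) : A.Dl l ⊆ A.Dl (l + 1) := by
  intro d hd
  refine induct A l (fun d => d ∈ A.Dl (l + 1)) (zero_mem A _) (add_mem A _) (mul_mem A _)
    (ι_mem A _) ?_ d hd
  rw [u_eq]
  exact mul_mem A _ _ _ (ι_mem A _ _) (mul_mem A _ _ _ (u_mem A _) (u_mem A _))

theorem split (l : ℕ) (d : D) (hd : d ∈ A.Dl (l + 1)) :
    ∃ d₀ ∈ A.Dl l, ∃ d₁ ∈ A.Dl l, d = d₀ + d₁ * A.u (l + 1) := by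
  obtain ⟨f, rfl⟩ := hd
  have key : ∀ s : Finset ℕ, ∃ d₀ ∈ A.Dl l, ∃ d₁ ∈ A.Dl l,
      ∑ i ∈ s, A.ι (f i) * A.u (l + 1) ^ i = d₀ + d₁ * A.u (l + 1) := by
    intro s
    induction s using Finset.induction_on with
    | empty => exact ⟨0, zero_mem A l, 0, zero_mem A l, by simp⟩
    | insert a s ha ih =>
      obtain ⟨d₀, h₀, d₁, h₁, h⟩ := ih
      rw [sum_insert ha, h]
      have hsq : ∀ k, A.u (l + 1) ^ (2 * k) ∈ A.Dl l := by
        intro k
        rw [pow_mul, pow_two, A.u_sq]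
        exact pow_mem A l _ (mul_mem A l _ _ (ι_mem A l _) (u_mem A l)) k
      rcases Nat.even_or_odd' a with ⟨k, hk | hk⟩
      · refine ⟨A.ι (f a) * A.u (l + 1) ^ a + d₀, add_mem A l _ _ (mul_mem A l _ _ (ι_mem A l _) ?_)
          h₀, d₁, h₁, by rw [add_assoc]⟩
        rw [hk]; exact hsq k
      · refine ⟨d₀, h₀, A.ι (f a) * A.u (l + 1) ^ (2 * k) + d₁,
          add_mem A l _ _ (mul_mem A l _ _ (ι_mem A l _) (hsq k)) h₁, ?_⟩
        rw [hk, pow_succ, add_mul, mul_assoc (A.ι _)]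
        abel
  exact key _

theorem val (l : ℕ) (d : D) (hd : d ∈ A.Dl l) (h0 : d ≠ 0) :
    ∃ n : ℤ, A.w d = (((n : ℚ) / 2 ^ l : ℚ) : WithTop ℚ) := by
  obtain ⟨f, rfl⟩ := hd
  have hex : ∃ i, i < 2 ^ l ∧ f i ≠ 0 := by
    by_contra h
    push Not at h
    apply h0
    refine sum_eq_zero fun i hi => ?_
    rw [h i (mem_range.mp hi), map_zero, zero_mul]
  obtain ⟨i, hi, hfi, hw⟩ := (w_sum A l f).2 hex
  obtain ⟨n, hn⟩ := w_term A l i (f i) hfi
  refine ⟨n * 2 ^ l + i, ?_⟩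
  rw [hw, hn]
  congr 1
  have h4 : (2 : ℚ) ^ l ≠ 0 := by positivity
  push_cast
  field_simp

theorem val_u (l : ℕ) (d : D) (hd : d ∈ A.Dl l) (h0 : d ≠ 0) : ∃ n : ℤ, Odd n ∧
    A.w (d * A.u (l + 1)) = (((n : ℚ) / 2 ^ (l + 1) : ℚ) : WithTop ℚ) := by
  obtain ⟨n, hn⟩ := val A l d hd h0
  refine ⟨2 * n + 1, ⟨n, rfl⟩, ?_⟩
  rw [AddValuation.map_mul, hn, A.w_u, ← WithTop.coe_add]
  congr 1
  have h4 : (2 : ℚ) ^ l ≠ 0 := by positivity
  push_cast
  rw [pow_succ]
  field_simp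

theorem split_zero (l : ℕ) (d₀ d₁ : D) (h₀ : d₀ ∈ A.Dl l) (h₁ : d₁ ∈ A.Dl l)
    (h : d₀ + d₁ * A.u (l + 1) = 0) : d₀ = 0 ∧ d₁ = 0 := by
  by_cases hd : d₁ = 0
  · refine ⟨?_, hd⟩
    rw [hd, zero_mul, add_zero] at h
    exact h
  exfalso
  have h2 : d₀ = -(d₁ * A.u (l + 1)) := eq_neg_of_add_eq_zero_left h
  have hne : d₀ ≠ 0 := by
    rw [h2]
    exact neg_ne_zero.mpr (mul_ne_zero hd (u_ne A _))
  obtain ⟨n, hn⟩ := val A l d₀ h₀ hne
  obtain ⟨m, hm, hm'⟩ := val_u A l d₁ h₁ hd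
  have h3 : A.w d₀ = A.w (d₁ * A.u (l + 1)) := by rw [h2, AddValuation.map_neg]
  rw [hn, hm'] at h3
  have h4 := WithTop.coe_injective h3
  have h5 : (2 * n : ℚ) = m := by
    have h6 : (2 : ℚ) ^ l ≠ 0 := by positivity
    rw [pow_succ] at h4
    field_simp at h4
    linarith
  have h6 : 2 * n = m := by exact_mod_cast h5
  obtain ⟨k, hk⟩ := hm
  omega

theorem conj (l : ℕ) (d : D) (hd : d ∈ A.Dl l) :
    A.u (l + 1) * d * (A.u (l + 1))⁻¹ ∈ A.Dl l := by
  have hu := u_ne A (l + 1)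
  have hι : ∀ x, A.u (l + 1) * A.ι x * (A.u (l + 1))⁻¹ = A.ι (C.g (l + 1) x) := by
    intro x
    rw [A.u_comm, mul_assoc, mul_inv_cancel₀ hu, mul_one]
  refine induct A l (fun d => A.u (l + 1) * d * (A.u (l + 1))⁻¹ ∈ A.Dl l) ?_ ?_ ?_ ?_ ?_ d hd
  · simpa using zero_mem A l
  · intro x y hx hy
    simp only [mul_add, add_mul]
    exact add_mem A l _ _ hx hy
  · intro x y hx hy
    have : A.u (l + 1) * (x * y) * (A.u (l + 1))⁻¹ =
        (A.u (l + 1) * x * (A.u (l + 1))⁻¹) * (A.u (l + 1) * y * (A.u (l + 1))⁻¹) := by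
      simp only [mul_assoc, inv_mul_cancel_left₀ hu]
    simp only [this]
    exact mul_mem A l _ _ hx hy
  · intro x
    simp only [hι]
    exact ι_mem A l _
  · have h1 : A.u (l + 1) * A.u l * (A.u (l + 1))⁻¹ =
        A.ι (C.g (l + 1) (C.a l)⁻¹ * C.a l) * A.u l := by
      conv_lhs => rw [u_eq A l]
      calc A.u (l + 1) * (A.ι (C.a l)⁻¹ * (A.u (l + 1) * A.u (l + 1))) * (A.u (l + 1))⁻¹
          = (A.u (l + 1) * A.ι (C.a l)⁻¹) * (A.u (l + 1) * (A.u (l + 1) * (A.u (l + 1))⁻¹)) := by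
            simp only [mul_assoc]
        _ = A.ι (C.g (l + 1) (C.a l)⁻¹) * (A.u (l + 1) * A.u (l + 1)) := by
            rw [mul_inv_cancel₀ hu, mul_one, A.u_comm, mul_assoc]
        _ = _ := by rw [A.u_sq, map_mul, mul_assoc]
    simp only [h1]
    exact mul_mem A l _ _ (ι_mem A l _) (u_mem A l)

theorem conj' (l : ℕ) (d : D) (hd : d ∈ A.Dl l) :
    (A.u (l + 1))⁻¹ * d * A.u (l + 1) ∈ A.Dl l := by
  have hu := u_ne A (l + 1)
  have hι : ∀ x, (A.u (l + 1))⁻¹ * A.ι x * A.u (l + 1) = A.ι ((C.g (l + 1)).symm x) := by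
    intro x
    have h1 := A.u_comm (l + 1) ((C.g (l + 1)).symm x)
    rw [RingEquiv.apply_symm_apply] at h1
    rw [mul_assoc, ← h1, inv_mul_cancel_left₀ hu]
  refine induct A l (fun d => (A.u (l + 1))⁻¹ * d * A.u (l + 1) ∈ A.Dl l) ?_ ?_ ?_ ?_ ?_ d hd
  · simpa using zero_mem A l
  · intro x y hx hy
    simp only [mul_add, add_mul]
    exact add_mem A l _ _ hx hy
  · intro x y hx hy
    have : (A.u (l + 1))⁻¹ * (x * y) * A.u (l + 1) =
        ((A.u (l + 1))⁻¹ * x * A.u (l + 1)) * ((A.u (l + 1))⁻¹ * y * A.u (l + 1)) := by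
      simp only [mul_assoc, mul_inv_cancel_left₀ hu]
    simp only [this]
    exact mul_mem A l _ _ hx hy
  · intro x
    simp only [hι]
    exact ι_mem A l _
  · have h1 : (A.u (l + 1))⁻¹ * A.u l * A.u (l + 1) =
        A.ι ((C.g (l + 1)).symm (C.a l)⁻¹ * C.a l) * A.u l := by
      conv_lhs => rw [u_eq A l]
      calc (A.u (l + 1))⁻¹ * (A.ι (C.a l)⁻¹ * (A.u (l + 1) * A.u (l + 1))) * A.u (l + 1)
          = ((A.u (l + 1))⁻¹ * A.ι (C.a l)⁻¹ * A.u (l + 1)) * (A.u (l + 1) * A.u (l + 1)) := by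
            simp only [mul_assoc]
        _ = _ := by rw [hι, A.u_sq, map_mul, mul_assoc]
    simp only [h1]
    exact mul_mem A l _ _ (ι_mem A l _) (u_mem A l)

theorem cen (l : ℕ) (x : K) (hx : C.g l x = x) (d : D) (hd : d ∈ A.Dl l) :
    A.ι x * d = d * A.ι x := by
  refine induct A l (fun d => A.ι x * d = d * A.ι x) ?_ ?_ ?_ ?_ ?_ d hd
  · simp
  · intro a b ha hb
    simp only [mul_add, add_mul, ha, hb]
  · intro a b ha hb
    rw [← mul_assoc, ha, mul_assoc, hb, mul_assoc]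
  · intro y
    rw [← map_mul, ← map_mul, mul_comm]
  · rw [A.u_comm, hx]

end Pool.Agent.Run7.h212.h378D2

namespace Pool.Agent.Run7.h212

open Pool.Agent.Run7.h378

/-- piece D2 -/
theorem D2 : S_base := by
  intro K _ _ C D _ A
  exact
    { u_ne := h378D2.u_ne A
      u_pow := h378D2.u_pow A
      sum_le := fun l f i hi => (h378D2.w_sum A l f).1 i hi
      uniq := h378D2.uniq A
      zero_mem := h378D2.zero_mem A
      one_mem := h378D2.one_mem A
      add_mem := h378D2.add_mem A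
      neg_mem := h378D2.neg_mem A
      mul_mem := h378D2.mul_mem A
      inv_mem := h378D2.inv_mem A
      ι_mem := h378D2.ι_mem A
      u_mem := h378D2.u_mem A
      mono := h378D2.mono A
      exh := A.span
      split := h378D2.split A
      split_zero := h378D2.split_zero A
      conj := h378D2.conj A
      conj' := h378D2.conj' A
      cen := h378D2.cen A
      val := h378D2.val A
      val_u := h378D2.val_u A }

end Pool.Agent.Run7.h212
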