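import Pool.Agent.Run7.h212.h378_D2

/-!
# MP_5766af_al, piece D3: basic facts about `E_l` and the centre of `D_l` (helper212)
-/

noncomputable section

namespace Pool.Agent.Run7.h212.h378D3

open Finset Polynomial Pool.Agent.Run7.h378

section fieldlevel

variable {K : Type} [Field K] [CharZero K] (T : Data K)

theorem M_le {i j : ℕ} (h : i ≤ j) {x : K} (hx : x ∈ T.M i) : x ∈ T.M j := T.M_mono h hx

theorem g_M_iter (l i : ℕ) {x : K} (hx : x ∈ T.M l) : (T.g l)^[i] x ∈ T.M l := by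
  induction i with
  | zero => exact hx
  | succ i ih => rw [Function.iterate_succ_apply']; exact T.g_M l _ ih

theorem g_M_succ (l i : ℕ) {x : K} (hx : x ∈ T.M (l + 1)) : (T.g l)^[i] x ∈ T.M (l + 1) := by
  induction i with
  | zero => exact hx
  | succ i ih =>
    rw [Function.iterate_succ_apply', ← T.g_sq]
    exact T.g_M _ _ (T.g_M _ _ ih)

theorem c_mem (l : ℕ) : T.c l ∈ T.M l := by
  induction l with
  | zero => exact T.c_mem
  | succ l ih =>
    rw [T.c_succ]
    exact mul_mem (prod_mem fun i _ => g_M_succ T l i (T.a_mem l)) (M_le T (Nat.le_succ l) ih)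

theorem g_pow (l j : ℕ) (x : K) : (T.g (l + j))^[2 ^ j] x = T.g l x := by
  induction j generalizing l x with
  | zero => simp
  | succ j ih =>
    have h1 : ∀ y, (T.g (l + (j + 1)))^[2 ^ j] y = T.g (l + 1) y := by
      intro y
      have := ih (l + 1) y
      rwa [show l + 1 + j = l + (j + 1) by ring] at this
    rw [pow_succ, mul_two, Function.iterate_add_apply, h1, h1, T.g_sq]

theorem g_period (l : ℕ) (x : K) : (T.g l)^[2 ^ l] x = x := by
  have := g_pow T 0 l x
  rw [zero_add] at this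
  rw [this, T.g_zero]

theorem g_one_ne {m : K} (hm : m ∈ T.M 0) (hF : m ∉ fix T.g) : T.g 1 m ≠ m := by
  intro h
  have h1 := T.free 0 m hm hF
  rw [zero_add, h] at h1
  apply h1
  have : m ∈ Subfield.closure ((T.M 0 : Set K)) := Subfield.subset_closure hm
  exact isAlgebraic_algebraMap (⟨m, this⟩ : Subfield.closure ((T.M 0 : Set K)))

theorem iter_ne {m : K} (hm : m ∈ T.M 0) (hF : m ∉ fix T.g) (l i : ℕ) (h0 : 0 < i)
    (hi : i < 2 ^ l) : (T.g l)^[i] m ≠ m := by
  intro h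
  have hp : Function.IsPeriodicPt (T.g l) (2 ^ l) m := g_period T l m
  have hp' : Function.IsPeriodicPt (T.g l) i m := h
  have hd := hp.minimalPeriod_dvd
  have hd' := hp'.minimalPeriod_dvd
  obtain ⟨k, hk, hk'⟩ := (Nat.dvd_prime_pow Nat.prime_two).mp hd
  have hkl : k < l := by
    have h1 : 2 ^ k ≤ i := by rw [← hk']; exact Nat.le_of_dvd h0 hd'
    exact (Nat.pow_lt_pow_iff_right (by norm_num)).mp (lt_of_le_of_lt h1 hi)
  have h2 : Function.IsPeriodicPt (T.g l) (2 ^ (l - 1)) m := by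
    apply (Function.isPeriodicPt_iff_minimalPeriod_dvd).mpr
    rw [hk']
    exact pow_dvd_pow 2 (by omega)
  have h3 := g_pow T 1 (l - 1) m
  rw [show 1 + (l - 1) = l by omega] at h3
  exact g_one_ne T hm hF (by rw [← h3]; exact h2)

theorem iter_ne' {m : K} (hm : m ∈ T.M 0) (hF : m ∉ fix T.g) (l i j : ℕ)
    (hj : j < 2 ^ l) (hij : i < j) : (T.g l)^[i] m ≠ (T.g l)^[j] m := by
  intro h
  obtain ⟨k, rfl⟩ := Nat.exists_eq_add_of_lt hij
  rw [show i + k + 1 = i + (k + 1) by ring, Function.iterate_add_apply] at h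
  have hinj : Function.Injective ((T.g l)^[i]) := (T.g l).injective.iterate i
  exact iter_ne T hm hF l (k + 1) (by omega) (by omega) (hinj h).symm

/-- trace -/
def Tr (l : ℕ) (x : K) : K := ∑ k ∈ range (2 ^ l), (T.g l)^[k] x

theorem g_Tr (l : ℕ) (x : K) : T.g l (Tr T l x) = Tr T l x := by
  unfold Tr
  rw [map_sum]
  have h1 : ∀ k, T.g l ((T.g l)^[k] x) = (T.g l)^[k + 1] x := fun k =>
    (Function.iterate_succ_apply' _ _ _).symm
  simp only [h1]
  have h2 := sum_range_succ (fun k => (T.g l)^[k] x) (2 ^ l)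
  rw [sum_range_succ'] at h2
  simp only [g_period, Function.iterate_zero, id_eq] at h2
  exact add_right_cancel h2

theorem Tr_mem (l : ℕ) {x : K} (hx : x ∈ T.M l) : Tr T l x ∈ T.M l :=
  sum_mem fun k _ => g_M_iter T l k hx

/-- the interpolation polynomial: `1` at `m`, `0` at the other conjugates -/
def B (m : K) (l : ℕ) : K[X] :=
  ∏ k ∈ Ico 1 (2 ^ l), (C (m - (T.g l)^[k] m)⁻¹ * (X - C ((T.g l)^[k] m)))

theorem B_eval_self {m : K} (hm : m ∈ T.M 0) (hF : m ∉ fix T.g) (l : ℕ) :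
    (B T m l).eval m = 1 := by
  unfold B
  rw [eval_prod]
  refine prod_eq_one fun k hk => ?_
  rw [mem_Ico] at hk
  simp only [eval_mul, eval_C, eval_sub, eval_X]
  exact inv_mul_cancel₀ (sub_ne_zero.mpr (iter_ne T hm hF l k (by omega) hk.2).symm)

theorem B_eval (m : K) (l k : ℕ) (h0 : 1 ≤ k) (hk : k < 2 ^ l) :
    (B T m l).eval ((T.g l)^[k] m) = 0 := by
  unfold B
  rw [eval_prod]
  refine prod_eq_zero (mem_Ico.mpr ⟨h0, hk⟩) ?_
  simp

theorem B_deg (m : K) (l : ℕ) : (B T m l).natDegree < 2 ^ l := by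
  have hp : 0 < 2 ^ l := by positivity
  unfold B
  refine lt_of_le_of_lt (natDegree_prod_le _ _) ?_
  refine lt_of_le_of_lt (sum_le_sum (g := fun _ => 1) fun k _ => ?_) ?_
  · refine (natDegree_C_mul_le _ _).trans ?_
    exact natDegree_X_sub_C_le _
  · simp

theorem B_coeff (m : K) (hm : m ∈ T.M 0) (l i : ℕ) : (B T m l).coeff i ∈ T.M l := by
  have hml : m ∈ T.M l := M_le T (Nat.zero_le l) hm
  have h1 : B T m l ∈ Polynomial.lifts (T.M l).subtype := by
    unfold B
    refine Subsemiring.prod_mem _ fun k _ => ?_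
    refine Subsemiring.mul_mem _ ?_ ?_
    · exact ⟨C ⟨(m - (T.g l)^[k] m)⁻¹, inv_mem (sub_mem hml (g_M_iter T l k hml))⟩, by simp⟩
    · exact ⟨X - C ⟨(T.g l)^[k] m, g_M_iter T l k hml⟩, by simp⟩
  rw [Polynomial.lifts_iff_coeff_lifts] at h1
  obtain ⟨y, hy⟩ := h1 i
  rw [← hy]
  exact y.2

/-- the coordinates of `x` in the basis `1, m, m^2, ...` -/
def co (m : K) (l i : ℕ) (x : K) : K := Tr T l (x * (B T m l).coeff i)

theorem iter_hom (l k : ℕ) : ∃ φ : K →+* K, ∀ x, (T.g l)^[k] x = φ x := by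
  induction k with
  | zero => exact ⟨RingHom.id K, fun _ => rfl⟩
  | succ k ih =>
    obtain ⟨φ, hφ⟩ := ih
    refine ⟨φ.comp (T.g l : K →+* K), fun x => ?_⟩
    rw [Function.iterate_succ_apply, hφ]
    rfl

theorem g_iter_map_eval (l k : ℕ) (f : K[X]) (hf : f.natDegree < 2 ^ l) (m : K) :
    ∑ i ∈ range (2 ^ l), (T.g l)^[k] (f.coeff i) * ((T.g l)^[k] m) ^ i =
      (T.g l)^[k] (f.eval m) := by
  obtain ⟨φ, hφ⟩ := iter_hom T l k
  simp only [hφ]
  rw [eval_eq_sum_range' hf, map_sum]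
  exact sum_congr rfl fun i _ => by rw [map_mul, map_pow]

theorem expand {m : K} (hm : m ∈ T.M 0) (hF : m ∉ fix T.g) (l : ℕ) (x : K) :
    x = ∑ i ∈ range (2 ^ l), co T m l i x * m ^ i := by
  have hp : 0 < 2 ^ l := by positivity
  unfold co Tr
  simp only [sum_mul]
  rw [sum_comm]
  have h3 : ∀ k ∈ range (2 ^ l), ∑ i ∈ range (2 ^ l),
      (T.g l)^[k] (x * (B T m l).coeff i) * m ^ i = if k = 0 then x else 0 := by
    intro k hk
    rw [mem_range] at hk
    obtain ⟨φ, hφ⟩ := iter_hom T l k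
    have h4 : ∀ i, (T.g l)^[k] (x * (B T m l).coeff i) * m ^ i =
        (T.g l)^[k] x * ((T.g l)^[k] ((B T m l).coeff i) *
          ((T.g l)^[k] ((T.g l)^[2 ^ l - k] m)) ^ i) := by
      intro i
      rw [← Function.iterate_add_apply, show k + (2 ^ l - k) = 2 ^ l by omega, g_period, hφ, hφ,
        hφ, map_mul, mul_assoc]
    simp only [h4]
    rw [← mul_sum, g_iter_map_eval T l k _ (B_deg T m l)]
    by_cases hk0 : k = 0
    · subst hk0
      simp only [Nat.sub_zero, g_period, Function.iterate_zero, id_eq, if_true]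
      rw [B_eval_self T hm hF, mul_one]
    · rw [B_eval T m l (2 ^ l - k) (by omega) (by omega), if_neg hk0, hφ 0, map_zero, mul_zero]
  rw [sum_congr rfl h3, sum_ite_eq' (range (2 ^ l)) 0, if_pos (mem_range.mpr hp)]

theorem g_co (m : K) (l i : ℕ) (x : K) : T.g l (co T m l i x) = co T m l i x := g_Tr T l _

theorem co_mem {m : K} (hm : m ∈ T.M 0) (l i : ℕ) {x : K} (hx : x ∈ T.M l) :
    co T m l i x ∈ T.M l := Tr_mem T l (mul_mem hx (B_coeff T m hm l i))

theorem exists_Z (l : ℕ) : ∃ t ∈ T.M l, T.g l t = t ∧ t ∉ fix T.g := by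
  obtain ⟨m, hm, hF⟩ := T.exists_M
  have hml : m ∈ T.M l := M_le T (Nat.zero_le l) hm
  by_contra hcon
  push Not at hcon
  apply hF
  apply T.acl_F
  have hco : ∀ i, co T m l i (m ^ 2 ^ l) ∈ fix T.g := fun i =>
    hcon _ (co_mem T hm l i (pow_mem hml _)) (g_co T m l i _)
  let q : (Subfield.closure ((fix T.g : Subfield K) : Set K))[X] :=
    X ^ (2 ^ l) - ∑ i ∈ range (2 ^ l),
      C ⟨co T m l i (m ^ 2 ^ l), Subfield.subset_closure (hco i)⟩ * X ^ i
  refine ⟨q, ?_, ?_⟩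
  · have hmon : q.Monic := by
      refine monic_X_pow_sub ?_
      refine lt_of_le_of_lt (degree_sum_le _ _) ?_
      rw [Finset.sup_lt_iff (WithBot.bot_lt_coe _)]
      intro i hi
      exact lt_of_le_of_lt (degree_C_mul_X_pow_le _ _) (by exact_mod_cast (mem_range.mp hi))
    exact hmon.ne_zero
  · have h1 := expand T hm hF l (m ^ 2 ^ l)
    simp only [q, map_sub, map_pow, aeval_X, map_sum, map_mul, aeval_C]
    rw [sub_eq_zero]
    exact h1

end fieldlevel

section algebralevel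

variable {K : Type} [Field K] [CharZero K] {T : Data K} {D : Type} [DivisionRing D]
  (A : Alg T.toCore D)

theorem E_zero (l : ℕ) : (0 : D) ∈ A.El l :=
  ⟨fun _ => 0, fun _ => (T.M l).zero_mem, by simp⟩

theorem E_add (l : ℕ) (x y : D) (hx : x ∈ A.El l) (hy : y ∈ A.El l) : x + y ∈ A.El l := by
  obtain ⟨f, hf, rfl⟩ := hx
  obtain ⟨g, hg, rfl⟩ := hy
  refine ⟨fun i => f i + g i, fun i => add_mem (hf i) (hg i), ?_⟩
  rw [← sum_add_distrib]
  exact sum_congr rfl fun i _ => by rw [map_add, add_mul]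

theorem E_neg (l : ℕ) (x : D) (hx : x ∈ A.El l) : -x ∈ A.El l := by
  obtain ⟨f, hf, rfl⟩ := hx
  refine ⟨fun i => - f i, fun i => neg_mem (hf i), ?_⟩
  rw [← sum_neg_distrib]
  exact sum_congr rfl fun i _ => by rw [map_neg, neg_mul]

theorem E_sum (l : ℕ) {α : Type} (s : Finset α) (F : α → D) (h : ∀ i ∈ s, F i ∈ A.El l) :
    ∑ i ∈ s, F i ∈ A.El l := by
  classical
  induction s using Finset.induction_on with
  | empty => simpa using E_zero A l
  | insert a s ha ih =>
    rw [sum_insert ha]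
    exact E_add A l _ _ (h a (mem_insert_self _ _))
      (ih fun i hi => h i (mem_insert_of_mem hi))

theorem E_term (l n : ℕ) (x : K) (hx : x ∈ T.M l) : A.ι x * A.u l ^ n ∈ A.El l := by
  induction n using Nat.strong_induction_on generalizing x with
  | _ n ih =>
    by_cases hn : n < 2 ^ l
    · refine ⟨fun i => if i = n then x else 0, fun i => ?_, ?_⟩
      · by_cases h : i = n
        · simpa [h] using hx
        · simp [h]
      rw [sum_eq_single n]
      · simp
      · intro b _ hb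
        simp [hb]
      · intro h
        exact absurd (mem_range.mpr hn) h
    · have hp : 0 < 2 ^ l := by positivity
      obtain ⟨m, rfl⟩ : ∃ m, n = m + 2 ^ l := ⟨n - 2 ^ l, by omega⟩
      have h1 : A.ι x * A.u l ^ (m + 2 ^ l) = A.ι (x * T.c l) * A.u l ^ m := by
        rw [pow_add, h378D2.u_pow, h378D2.u_pow_comm, h378D2.g_c_iter A, map_mul, mul_assoc]
      rw [h1]
      exact ih m (by omega) _ (mul_mem hx (c_mem T l))

theorem E_mul (l : ℕ) (x y : D) (hx : x ∈ A.El l) (hy : y ∈ A.El l) : x * y ∈ A.El l := by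
  obtain ⟨f, hf, rfl⟩ := hx
  obtain ⟨g, hg, rfl⟩ := hy
  rw [sum_mul]
  refine E_sum A l _ _ fun i _ => ?_
  rw [mul_sum]
  refine E_sum A l _ _ fun j _ => ?_
  have h1 : A.ι (f i) * A.u l ^ i * (A.ι (g j) * A.u l ^ j) =
      A.ι (f i * (T.g l)^[i] (g j)) * A.u l ^ (i + j) := by
    rw [map_mul, pow_add]
    have := h378D2.u_pow_comm A l i (g j)
    calc A.ι (f i) * A.u l ^ i * (A.ι (g j) * A.u l ^ j)
        = A.ι (f i) * (A.u l ^ i * A.ι (g j)) * A.u l ^ j := by simp only [mul_assoc]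
      _ = _ := by rw [this]; simp only [mul_assoc]
  rw [h1]
  exact E_term A l _ _ (mul_mem (hf i) (g_M_iter T l i (hg j)))

theorem E_ι (l : ℕ) (x : K) (hx : x ∈ T.M l) : A.ι x ∈ A.El l := by
  simpa using E_term A l 0 x hx

theorem E_one (l : ℕ) : (1 : D) ∈ A.El l := by
  simpa using E_ι A l 1 (T.M l).one_mem

theorem E_u (l : ℕ) : A.u l ∈ A.El l := by
  simpa using E_term A l 1 1 (T.M l).one_mem

theorem E_pow (l : ℕ) (x : D) (hx : x ∈ A.El l) (n : ℕ) : x ^ n ∈ A.El l := by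
  induction n with
  | zero => simpa using E_one A l
  | succ n ih => rw [pow_succ]; exact E_mul A l _ _ ih hx

theorem E_inv (l : ℕ) (d : D) (hd : d ∈ A.El l) : d⁻¹ ∈ A.El l := by
  by_cases h0 : d = 0
  · rw [h0, inv_zero]; exact E_zero A l
  let _ : Module (T.M l) D := Module.compHom D (A.ι.comp (T.M l).subtype)
  have smul_def : ∀ (k : T.M l) (x : D), k • x = A.ι k.1 * x := fun _ _ => rfl
  let V : Submodule (T.M l) D :=
    { carrier := A.El l
      add_mem' := fun {a b} ha hb => E_add A l a b ha hb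
      zero_mem' := E_zero A l
      smul_mem' := fun k x hx => by
        rw [smul_def]
        exact E_mul A l _ _ (E_ι A l k.1 k.2) hx }
  have hspan : V = Submodule.span (T.M l) ((fun i => A.u l ^ i) '' (range (2 ^ l) : Set ℕ)) := by
    apply le_antisymm
    · rintro x ⟨f, hf, rfl⟩
      refine Submodule.sum_mem _ fun i hi => ?_
      have h1 : A.ι (f i) * A.u l ^ i = (⟨f i, hf i⟩ : T.M l) • (A.u l ^ i) := rfl
      rw [h1]
      exact Submodule.smul_mem _ _ (Submodule.subset_span ⟨i, hi, rfl⟩)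
    · rw [Submodule.span_le]
      rintro x ⟨i, _, rfl⟩
      exact E_pow A l _ (E_u A l) i
  have : FiniteDimensional (T.M l) V := by
    rw [hspan]
    exact FiniteDimensional.span_of_finite (T.M l) ((range (2 ^ l)).finite_toSet.image _)
  let R : V →ₗ[T.M l] V :=
    { toFun := fun x => ⟨x.1 * d, E_mul A l _ _ x.2 hd⟩
      map_add' := fun x y => by
        apply Subtype.ext
        simp [add_mul]
      map_smul' := fun k x => by
        apply Subtype.ext
        change (k • x.1) * d = k • (x.1 * d)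
        rw [smul_def, smul_def, mul_assoc] }
  have hinj : Function.Injective R := by
    intro x y hxy
    have h1 : x.1 * d = y.1 * d := congrArg Subtype.val hxy
    exact Subtype.ext (mul_right_cancel₀ h0 h1)
  obtain ⟨e, he⟩ := (LinearMap.injective_iff_surjective.mp hinj) ⟨1, E_one A l⟩
  have h1 : e.1 * d = 1 := congrArg Subtype.val he
  have h2 : d⁻¹ = e.1 := by
    rw [eq_comm]
    exact eq_inv_of_mul_eq_one_left h1
  rw [h2]
  exact e.2

theorem E_sub (l : ℕ) : A.El l ⊆ A.Dl l := by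
  rintro x ⟨f, _, rfl⟩
  exact ⟨f, rfl⟩

theorem E_mono (l : ℕ) : A.El l ⊆ A.El (l + 1) := by
  have hu : A.u l ∈ A.El (l + 1) := by
    rw [h378D2.u_eq]
    exact E_mul A _ _ _ (E_ι A _ _ (inv_mem (T.a_mem l))) (E_mul A _ _ _ (E_u A _) (E_u A _))
  rintro x ⟨f, hf, rfl⟩
  exact E_sum A _ _ _ fun i _ => E_mul A _ _ _ (E_ι A _ _ (M_le T (Nat.le_succ l) (hf i)))
    (E_pow A _ _ hu i)

theorem E_mono' {l k : ℕ} (h : l ≤ k) : A.El l ⊆ A.El k := by
  induction h with
  | refl => exact fun _ h => h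
  | step _ ih => exact fun x hx => E_mono A _ (ih hx)

theorem E_exh (d : D) : ∃ l, d ∈ A.El l := by
  obtain ⟨l, f, rfl⟩ := A.span d
  have h1 : ∀ s : Finset ℕ, ∃ L, l ≤ L ∧ ∀ i ∈ s, f i ∈ T.M L := by
    intro s
    induction s using Finset.induction_on with
    | empty => exact ⟨l, le_rfl, by simp⟩
    | insert a s ha ih =>
      obtain ⟨L, hL, h⟩ := ih
      obtain ⟨L', hL'⟩ := T.M_top (f a)
      refine ⟨max L L', le_max_of_le_left hL, fun i hi => ?_⟩
      rcases mem_insert.mp hi with rfl | hi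
      · exact M_le T (le_max_right _ _) hL'
      · exact M_le T (le_max_left _ _) (h i hi)
  obtain ⟨L, hL, h⟩ := h1 (range (2 ^ l))
  exact ⟨L, E_sum A _ _ _ fun i hi => E_mul A _ _ _ (E_ι A _ _ (h i hi))
    (E_pow A _ _ (E_mono' A hL (E_u A l)) i)⟩

theorem coeff_eq (l : ℕ) (f g : ℕ → K)
    (h : ∑ i ∈ range (2 ^ l), A.ι (f i) * A.u l ^ i = ∑ i ∈ range (2 ^ l), A.ι (g i) * A.u l ^ i)
    (i : ℕ) (hi : i < 2 ^ l) : f i = g i := by
  have h1 : ∑ i ∈ range (2 ^ l), A.ι (f i - g i) * A.u l ^ i = 0 := by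
    rw [← sub_eq_zero.mpr h, ← sum_sub_distrib]
    exact sum_congr rfl fun i _ => by rw [map_sub, sub_mul]
  exact sub_eq_zero.mp (h378D2.uniq A l _ h1 i hi)

theorem E_ι' (l : ℕ) (x : K) (hx : A.ι x ∈ A.El l) : x ∈ T.M l := by
  have hp : 0 < 2 ^ l := by positivity
  obtain ⟨f, hf, h⟩ := hx
  have h1 : ∑ i ∈ range (2 ^ l), A.ι (if i = 0 then x else 0) * A.u l ^ i = A.ι x := by
    rw [sum_eq_single 0]
    · simp
    · intro b _ hb
      simp [hb]
    · intro h
      exact absurd (mem_range.mpr hp) h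
  rw [h] at h1
  have h2 := coeff_eq A l _ _ h1 0 hp
  simp only [if_true] at h2
  rw [h2]
  exact hf 0

theorem E_cen (l : ℕ) (d : D) (hd : d ∈ A.Dl l) (hcomm : ∀ e ∈ A.El l, e * d = d * e) :
    ∃ x, T.g l x = x ∧ d = A.ι x := by
  have hp : 0 < 2 ^ l := by positivity
  obtain ⟨m, hm, hF⟩ := T.exists_M
  have hml : m ∈ T.M l := M_le T (Nat.zero_le l) hm
  obtain ⟨f, rfl⟩ := hd
  have h1 := hcomm _ (E_ι A l m hml)
  rw [mul_sum, sum_mul] at h1
  have h2 : ∑ i ∈ range (2 ^ l), A.ι (m * f i) * A.u l ^ i =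
      ∑ i ∈ range (2 ^ l), A.ι (f i * (T.g l)^[i] m) * A.u l ^ i := by
    calc ∑ i ∈ range (2 ^ l), A.ι (m * f i) * A.u l ^ i
        = ∑ i ∈ range (2 ^ l), A.ι m * (A.ι (f i) * A.u l ^ i) :=
          sum_congr rfl fun i _ => by rw [map_mul, mul_assoc]
      _ = _ := h1
      _ = _ := sum_congr rfl fun i _ => by
          rw [map_mul, mul_assoc, h378D2.u_pow_comm, mul_assoc]
  have h3 : ∀ i, 0 < i → i < 2 ^ l → f i = 0 := by
    intro i hi0 hi
    have h4 := coeff_eq A l _ _ h2 i hi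
    have h5 : f i * ((T.g l)^[i] m - m) = 0 := by linear_combination -h4
    rcases mul_eq_zero.mp h5 with h6 | h6
    · exact h6
    · exact absurd (sub_eq_zero.mp h6) (iter_ne T hm hF l i hi0 hi)
  have h4 : ∑ i ∈ range (2 ^ l), A.ι (f i) * A.u l ^ i = A.ι (f 0) := by
    rw [sum_eq_single 0]
    · simp
    · intro b hb hb'
      rw [h3 b (Nat.pos_of_ne_zero hb') (mem_range.mp hb)]
      simp
    · intro h
      exact absurd (mem_range.mpr hp) h
  refine ⟨f 0, ?_, h4⟩
  have h5 := hcomm _ (E_u A l)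
  rw [h4, A.u_comm] at h5
  exact A.ι.injective (mul_right_cancel₀ (h378D2.u_ne A l) h5)

theorem E_basis (l : ℕ) : ∃ (N : ℕ) (e : Fin N → D), (∀ j, e j ∈ A.El l) ∧
    (∀ d ∈ A.Dl l, ∃ x : Fin N → K, (∀ j, T.g l (x j) = x j) ∧ d = ∑ j, A.ι (x j) * e j) ∧
    (∀ d ∈ A.El l, ∃ x : Fin N → K, (∀ j, T.g l (x j) = x j ∧ x j ∈ T.M l) ∧
      d = ∑ j, A.ι (x j) * e j) := by
  obtain ⟨m, hm, hF⟩ := T.exists_M
  have hml : m ∈ T.M l := M_le T (Nat.zero_le l) hm
  let E : Fin (2 ^ l) × Fin (2 ^ l) → D := fun p => A.ι (m ^ (p.1 : ℕ)) * A.u l ^ (p.2 : ℕ)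
  let X : (ℕ → K) → Fin (2 ^ l) × Fin (2 ^ l) → K := fun f p => co T m l p.1 (f p.2)
  have key : ∀ f : ℕ → K, ∑ j ∈ range (2 ^ l), A.ι (f j) * A.u l ^ j =
      ∑ p, A.ι (X f p) * E p := by
    intro f
    rw [Fintype.sum_prod_type_right]
    rw [← Fin.sum_univ_eq_sum_range (fun j => A.ι (f j) * A.u l ^ j)]
    refine sum_congr rfl fun j _ => ?_
    conv_lhs => rw [expand T hm hF l (f j)]
    rw [map_sum, sum_mul, ← Fin.sum_univ_eq_sum_range
      (fun i => A.ι (co T m l i (f j) * m ^ i) * A.u l ^ (j : ℕ))]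
    refine sum_congr rfl fun i _ => ?_
    simp only [X, E]
    rw [map_mul, mul_assoc]
  refine ⟨2 ^ l * 2 ^ l, E ∘ finProdFinEquiv.symm, fun j => ?_, fun d hd => ?_, fun d hd => ?_⟩
  · exact E_mul A l _ _ (E_ι A l _ (pow_mem hml _)) (E_pow A l _ (E_u A l) _)
  · obtain ⟨f, rfl⟩ := hd
    refine ⟨X f ∘ finProdFinEquiv.symm, fun j => g_co T m l _ _, ?_⟩
    rw [key f]
    exact (Equiv.sum_comp finProdFinEquiv.symm (fun p => A.ι (X f p) * E p)).symm
  · obtain ⟨f, hf, rfl⟩ := hd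
    refine ⟨X f ∘ finProdFinEquiv.symm,
      fun j => ⟨g_co T m l _ _, co_mem T hm l _ (hf _)⟩, ?_⟩
    rw [key f]
    exact (Equiv.sum_comp finProdFinEquiv.symm (fun p => A.ι (X f p) * E p)).symm

end algebralevel

end Pool.Agent.Run7.h212.h378D3

namespace Pool.Agent.Run7.h212

open Pool.Agent.Run7.h378

/-- piece D3 -/
theorem D3 : S_baseE := by
  intro K _ _ T D _ A
  exact
    { zero_mem := h378D3.E_zero A
      one_mem := h378D3.E_one A
      add_mem := h378D3.E_add A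
      neg_mem := h378D3.E_neg A
      mul_mem := h378D3.E_mul A
      inv_mem := h378D3.E_inv A
      ι_mem := h378D3.E_ι A
      u_mem := h378D3.E_u A
      sub := h378D3.E_sub A
      mono := h378D3.E_mono A
      exh := h378D3.E_exh A
      ι_mem' := h378D3.E_ι' A
      exists_Z := h378D3.exists_Z T
      cen := h378D3.E_cen A
      basis := h378D3.E_basis A }

end Pool.Agent.Run7.h212
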